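import Pool.Agent.Lib.MP_e46711_an.H82.Basic

/-!
# MP_e46711_an, module B6 (`UniqStatement`)

Non-existence of positive nonconstant solutions on the thin ring at `l1`.
-/

open Set Filter Topology MeasureTheory
open scoped ContDiff

namespace Pool.Agent.Lib.MP_e46711_an.H46

/-! ### the measure `muT` -/

lemma muT_eq (ℓ : ℝ) : muT ℓ = volume.restrict (Ioc 0 ℓ ×ˢ Ioo (-1) 1) := by
  rw [muT, Measure.prod_restrict]; rfl

instance (ℓ : ℝ) : IsFiniteMeasure (muT ℓ) := by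
  unfold muT; infer_instance

lemma ae_mem (ℓ : ℝ) : ∀ᵐ z ∂muT ℓ, z ∈ Ioc 0 ℓ ×ˢ Ioo (-1) 1 := by
  rw [muT_eq]
  exact ae_restrict_mem (measurableSet_Ioc.prod measurableSet_Ioo)

lemma muT_ne_zero {ℓ : ℝ} (hℓ : 0 < ℓ) : muT ℓ ≠ 0 := by
  intro h
  have h1 : muT ℓ univ = ENNReal.ofReal ℓ * ENNReal.ofReal 2 := by
    rw [muT, ← univ_prod_univ, Measure.prod_prod]
    simp
    norm_num
  rw [h] at h1
  have h2 : ENNReal.ofReal ℓ * ENNReal.ofReal 2 ≠ 0 := by
    apply mul_ne_zero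
    · simpa using hℓ
    · simp
  exact h2 h1.symm

lemma muT_ne_bot {ℓ : ℝ} (hℓ : 0 < ℓ) : (ae (muT ℓ)).NeBot := ae_neBot.2 (muT_ne_zero hℓ)

/-- integrals of functions of the first variable -/
lemma integral_fst {ℓ : ℝ} (hℓ : 0 < ℓ) (f : ℝ → ℝ) :
    ∫ z, f z.1 ∂muT ℓ = 2 * ∫ s in (0:ℝ)..ℓ, f s := by
  have h1 := integral_prod_mul (μ := volume.restrict (Ioc (0:ℝ) ℓ))
    (ν := volume.restrict (Ioo (-1:ℝ) 1)) f (fun _ => (1:ℝ))
  simp only [mul_one] at h1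
  rw [muT, h1, intervalIntegral.integral_of_le hℓ.le]
  simp
  norm_num [mul_comm]

/-! ### the weight -/

/-- the weight of `Inu` -/
noncomputable def wt (ℓ : ℝ) (h : ℝ → ℝ) (δ : ℝ) (z : ℝ × ℝ) : ℝ := h z.1 * om ℓ h δ z / 2

lemma per_bounds {ℓ : ℝ} (hℓ : 0 < ℓ) {h : ℝ → ℝ} (hc : Continuous h)
    (hp : ∀ s, h (s + ℓ) = h s) (h0 : ∀ s, 0 < h s) : ∃ c > 0, ∃ C > 0, ∀ s, c ≤ h s ∧ h s ≤ C := by
  have hper : Function.Periodic h ℓ := hp
  have hcomp := hper.compact_of_continuous hℓ.ne' hc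
  obtain ⟨c, ⟨x, rfl⟩, hcl⟩ := hcomp.exists_isLeast (range_nonempty h)
  obtain ⟨C, ⟨y, rfl⟩, hCl⟩ := hcomp.exists_isGreatest (range_nonempty h)
  exact ⟨h x, h0 x, h y, h0 y, fun s => ⟨hcl ⟨s, rfl⟩, hCl ⟨s, rfl⟩⟩⟩

lemma continuous_wt {ℓ : ℝ} {h : ℝ → ℝ} (hc : Continuous h) (δ : ℝ) : Continuous (wt ℓ h δ) := by
  unfold wt om
  have : Continuous fun z : ℝ × ℝ => h z.1 := hc.comp continuous_fst
  fun_prop

/-- two-sided bounds for the weight, uniform in `δ ∈ (0,1]` -/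
lemma wt_bounds {ℓ : ℝ} (hℓ : 0 < ℓ) {h : ℝ → ℝ} (hc : Continuous h)
    (hp : ∀ s, h (s + ℓ) = h s) (h0 : ∀ s, 0 < h s) :
    ∃ c > 0, ∃ C > 0, ∀ δ ∈ Ioc (0:ℝ) 1, ∀ z ∈ Ioc 0 ℓ ×ˢ Ioo (-1:ℝ) 1,
      c ≤ wt ℓ h δ z ∧ wt ℓ h δ z ≤ C := by
  obtain ⟨a, ha, b, hb, hab⟩ := per_bounds hℓ hc hp h0
  set E : ℝ := 4 * Real.pi * b / ℓ with hE
  have hE0 : 0 < E := by positivity
  refine ⟨a * Real.exp (-E) / 2, by positivity, b * Real.exp E / 2, by positivity, ?_⟩
  rintro δ ⟨hδ0, hδ1⟩ ⟨s, y⟩ ⟨-, hy⟩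
  simp only [mem_Ioo] at hy
  obtain ⟨h1, h2⟩ := hab s
  have hbd : |4 * Real.pi * δ * h s * y / ℓ| ≤ E := by
    rw [hE, abs_div, abs_of_pos hℓ, abs_mul, abs_of_pos (by have := h0 s; positivity)]
    have hy1 : |y| ≤ 1 := abs_le.2 ⟨by linarith, by linarith⟩
    apply div_le_div_of_nonneg_right _ hℓ.le
    have hpi := Real.pi_pos
    have hs := h0 s
    calc 4 * Real.pi * δ * h s * |y| ≤ 4 * Real.pi * 1 * b * 1 := by
          gcongr
      _ = 4 * Real.pi * b := by ring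
  obtain ⟨hl, hu⟩ := abs_le.1 hbd
  have e1 : Real.exp (-E) ≤ om ℓ h δ (s, y) := Real.exp_le_exp.2 hl
  have e2 : om ℓ h δ (s, y) ≤ Real.exp E := Real.exp_le_exp.2 hu
  have e0 := Real.exp_pos (-E)
  have e3 := Real.exp_pos E
  have hs := h0 s
  have e4 : 0 ≤ om ℓ h δ (s, y) := (Real.exp_pos _).le
  constructor
  · unfold wt
    simp only
    gcongr
  · unfold wt
    simp only
    gcongr

section
variable {ℓ : ℝ} {h : ℝ → ℝ} {δ : ℝ}

lemma Inu_def (f : ℝ × ℝ → ℝ) : Inu ℓ h δ f = ∫ z, f z * wt ℓ h δ z ∂muT ℓ := rfl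

lemma integrable_mul_wt (hc : Continuous h) {c C : ℝ} (hc0 : 0 < c)
    (hb : ∀ z ∈ Ioc 0 ℓ ×ˢ Ioo (-1:ℝ) 1, c ≤ wt ℓ h δ z ∧ wt ℓ h δ z ≤ C)
    {f : ℝ × ℝ → ℝ} (hf : Integrable f (muT ℓ)) :
    Integrable (fun z => f z * wt ℓ h δ z) (muT ℓ) := by
  have h1 : AEStronglyMeasurable (wt ℓ h δ) (muT ℓ) := (continuous_wt hc δ).aestronglyMeasurable
  refine hf.mul_bdd (c := C) h1 ?_
  filter_upwards [ae_mem ℓ] with z hz
  obtain ⟨h2, h3⟩ := hb z hz
  rw [Real.norm_eq_abs, abs_of_pos (by linarith)]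
  exact h3

lemma Inu_mono (hc : Continuous h) {c C : ℝ} (hc0 : 0 < c)
    (hb : ∀ z ∈ Ioc 0 ℓ ×ˢ Ioo (-1:ℝ) 1, c ≤ wt ℓ h δ z ∧ wt ℓ h δ z ≤ C)
    {f g : ℝ × ℝ → ℝ} (hf : Integrable f (muT ℓ)) (hg : Integrable g (muT ℓ))
    (hfg : ∀ᵐ z ∂muT ℓ, f z ≤ g z) : Inu ℓ h δ f ≤ Inu ℓ h δ g := by
  rw [Inu_def, Inu_def]
  refine integral_mono_ae (integrable_mul_wt hc hc0 hb hf) (integrable_mul_wt hc hc0 hb hg) ?_
  filter_upwards [hfg, ae_mem ℓ] with z hz hm
  exact mul_le_mul_of_nonneg_right hz (by linarith [(hb z hm).1])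

lemma Inu_add (hc : Continuous h) {c C : ℝ} (hc0 : 0 < c)
    (hb : ∀ z ∈ Ioc 0 ℓ ×ˢ Ioo (-1:ℝ) 1, c ≤ wt ℓ h δ z ∧ wt ℓ h δ z ≤ C)
    {f g : ℝ × ℝ → ℝ} (hf : Integrable f (muT ℓ)) (hg : Integrable g (muT ℓ)) :
    Inu ℓ h δ (fun z => f z + g z) = Inu ℓ h δ f + Inu ℓ h δ g := by
  rw [Inu_def, Inu_def, Inu_def, ← integral_add (integrable_mul_wt hc hc0 hb hf)
    (integrable_mul_wt hc hc0 hb hg)]
  congr 1; funext z; ring

lemma Inu_const_mul (a : ℝ) (f : ℝ × ℝ → ℝ) :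
    Inu ℓ h δ (fun z => a * f z) = a * Inu ℓ h δ f := by
  rw [Inu_def, Inu_def, ← integral_const_mul]
  congr 1; funext z; ring

/-- a nonnegative function with nonpositive integral vanishes a.e. -/
lemma Inu_eq_zero (hc : Continuous h) {c C : ℝ} (hc0 : 0 < c)
    (hb : ∀ z ∈ Ioc 0 ℓ ×ˢ Ioo (-1:ℝ) 1, c ≤ wt ℓ h δ z ∧ wt ℓ h δ z ≤ C)
    {f : ℝ × ℝ → ℝ} (hf : Integrable f (muT ℓ)) (h0 : ∀ᵐ z ∂muT ℓ, 0 ≤ f z)
    (hi : Inu ℓ h δ f ≤ 0) : ∀ᵐ z ∂muT ℓ, f z = 0 := by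
  have hnn : 0 ≤ᵐ[muT ℓ] fun z => f z * wt ℓ h δ z := by
    filter_upwards [h0, ae_mem ℓ] with z hz hm
    exact mul_nonneg hz (by linarith [(hb z hm).1])
  have h1 : ∫ z, f z * wt ℓ h δ z ∂muT ℓ = 0 :=
    le_antisymm hi (integral_nonneg_of_ae hnn)
  rw [integral_eq_zero_iff_of_nonneg_ae hnn (integrable_mul_wt hc hc0 hb hf)] at h1
  filter_upwards [h1, ae_mem ℓ] with z hz hm
  simp only [Pi.zero_apply] at hz
  rcases mul_eq_zero.1 hz with h | h
  · exact h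
  · linarith [(hb z hm).1]

lemma Bil_nonneg (h0 : ∀ s, 0 < h s) (V W : ℝ × ℝ → ℝ) : 0 ≤ Bil ℓ h δ V W V W := by
  refine integral_nonneg fun z => ?_
  have := h0 z.1
  have h1 := mul_self_nonneg (G1 h V W z)
  have h2 := mul_self_nonneg (G2 h δ W z)
  simp only [Pi.zero_apply]
  positivity

lemma Bil_const (V W : ℝ × ℝ → ℝ) :
    Bil ℓ h δ V W (dS (fun _ => (1:ℝ))) (dY (fun _ => (1:ℝ))) = 0 := by
  have h1 : dS (fun _ => (1:ℝ)) = fun _ => 0 := by funext z; simp [dS]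
  have h2 : dY (fun _ => (1:ℝ)) = fun _ => 0 := by funext z; simp [dY]
  rw [h1, h2]
  simp [Bil, G1, G2]

end

/-! ### integrability of the nonlinear terms -/

section
variable {p : ℝ} {μ : Measure (ℝ × ℝ)} [IsFiniteMeasure μ]

lemma memLp_gg (hp : 0 < p) (hp1 : p < 1) {U : ℝ × ℝ → ℝ} (hU : MemLp U 2 μ) :
    MemLp (fun z => gg p (U z)) 2 μ := by
  have h1 : MemLp (fun z => 1 + 2 * |U z|) 2 μ := by
    have := (memLp_const (1:ℝ) (p := 2) (μ := μ)).add ((hU.abs).const_mul 2)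
    exact this
  refine h1.mono ((continuous_gg hp hp1).comp_aestronglyMeasurable hU.1) ?_
  filter_upwards with z
  rw [Real.norm_eq_abs, Real.norm_eq_abs, abs_of_nonneg (by positivity : (0:ℝ) ≤ 1 + 2 * |U z|)]
  exact abs_gg_le hp hp1 _

end

/-- (g6) -/
lemma gg_near {p ν : ℝ} (hp : 0 < p) (hp1 : p < 1) (hν : 0 < ν) :
    ∃ η > 0, η < 1 ∧ ∀ x y : ℝ, |x - 1| ≤ η → |y - 1| ≤ η →
      (gg p x - gg p y) * (x - y) ≤ (1 - p + ν) * (x - y) ^ 2 := by
  have hcont : ContinuousAt (fun x : ℝ => p * x ^ (p - 1)) 1 :=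
    (Real.continuousAt_rpow_const 1 (p - 1) (Or.inl one_ne_zero)).const_mul p |>.congr
      (by rfl)
  have hev : ∀ᶠ x in 𝓝 (1:ℝ), p - ν < p * x ^ (p - 1) := by
    have := hcont.tendsto
    simp only [Real.one_rpow, mul_one] at this
    exact this.eventually (lt_mem_nhds (by linarith))
  obtain ⟨ε, hε, hball⟩ := Metric.eventually_nhds_iff.1 hev
  set η := min (ε / 2) (1 / 2) with hη
  have hη0 : 0 < η := by positivity
  have hη1 : η < 1 := lt_of_le_of_lt (min_le_right _ _) (by norm_num)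
  have hηε : η < ε := lt_of_le_of_lt (min_le_left _ _) (by linarith)
  refine ⟨η, hη0, hη1, ?_⟩
  -- monotonicity of `x ↦ x^p - (p-ν) x`
  have hmono : MonotoneOn (fun x : ℝ => x ^ p - (p - ν) * x) (Icc (1 - η) (1 + η)) := by
    have hpos : ∀ x ∈ Icc (1 - η) (1 + η), 0 < x := fun x hx => by linarith [hx.1]
    have hder : ∀ x ∈ Icc (1 - η) (1 + η),
        HasDerivAt (fun x : ℝ => x ^ p - (p - ν) * x) (p * x ^ (p - 1) - (p - ν)) x := by
      intro x hx
      have h1 := Real.hasDerivAt_rpow_const (p := p) (Or.inl (hpos x hx).ne')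
      have h2 := (hasDerivAt_id x).const_mul (p - ν)
      have h3 := h1.sub h2
      rw [mul_one] at h3
      exact h3
    apply monotoneOn_of_deriv_nonneg (convex_Icc _ _)
    · exact fun x hx => (hder x hx).continuousAt.continuousWithinAt
    · intro x hx
      rw [interior_Icc] at hx
      exact (hder x (Ioo_subset_Icc_self hx)).differentiableAt.differentiableWithinAt
    · intro x hx
      rw [interior_Icc] at hx
      rw [(hder x (Ioo_subset_Icc_self hx)).deriv]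
      have : dist x 1 < ε := by
        rw [Real.dist_eq, abs_lt]
        constructor <;> [linarith [hx.1]; linarith [hx.2]]
      linarith [hball this]
  have key : ∀ x y : ℝ, |x - 1| ≤ η → |y - 1| ≤ η → y ≤ x →
      (gg p x - gg p y) * (x - y) ≤ (1 - p + ν) * (x - y) ^ 2 := by
    intro x y hx hy hyx
    obtain ⟨hx1, hx2⟩ := abs_le.1 hx
    obtain ⟨hy1, hy2⟩ := abs_le.1 hy
    have hm := hmono (⟨by linarith, by linarith⟩ : y ∈ Icc (1 - η) (1 + η))
      (⟨by linarith, by linarith⟩ : x ∈ Icc (1 - η) (1 + η)) hyx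
    simp only at hm
    rw [gg_of_nonneg hp (by linarith), gg_of_nonneg hp (by linarith)]
    have h3 : (x - x ^ p) - (y - y ^ p) ≤ (1 - p + ν) * (x - y) := by linarith
    calc (x - x ^ p - (y - y ^ p)) * (x - y) ≤ ((1 - p + ν) * (x - y)) * (x - y) :=
          mul_le_mul_of_nonneg_right h3 (by linarith)
      _ = (1 - p + ν) * (x - y) ^ 2 := by ring
  intro x y hx hy
  rcases le_total y x with h | h
  · exact key x y hx hy h
  · have := key y x hy hx h
    have e1 : (gg p x - gg p y) * (x - y) = (gg p y - gg p x) * (y - x) := by ring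
    have e2 : (x - y) ^ 2 = (y - x) ^ 2 := by ring
    rw [e1, e2]; exact this

/-- facts on a positive solution: `∫ g(U) = 0`, `∫ U ≤ ∫ 1`, `E = lam ∫ g(U) U` -/
lemma Inu_gg_eq_zero {p lam ℓ : ℝ} {h : ℝ → ℝ} {δ : ℝ} (hlam : 0 < lam) {U V W : ℝ × ℝ → ℝ}
    (hs : WSol p lam ℓ h δ U V W) : Inu ℓ h δ (fun z => gg p (U z)) = 0 := by
  have h1 := hs.eq (fun _ => 1) ⟨contDiff_const, fun _ _ => rfl⟩
  rw [Bil_const] at h1
  simp only [mul_one] at h1
  rcases mul_eq_zero.1 h1.symm with h | h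
  · exact absurd h hlam.ne'
  · exact h

theorem uniq (hco : Coer2D) (hT4 : T42D) (hlim : LimitStatement) (hsup : SupClose)
    (hdead : LocalDead) (hweak : WeakExtend) : UniqStatement := by
  intro p l0 l1 l3 R
  have hp := R.hp0
  have hp1 := R.hp1
  have hℓ := R.hℓ
  have hl1 : 0 < l1 := R.hl0.trans R.hl01
  have hcont : Continuous R.h := R.smooth.continuous
  have := muT_ne_bot hℓ
  by_contra hcon
  rw [not_eventually] at hcon
  obtain ⟨c, hc, C, hC, hwb⟩ := wt_bounds hℓ hcont R.per R.pos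
  obtain ⟨cc, hcc, CC, hCC, hco'⟩ := hco p l0 l1 l3 R l1 hl1 R.hl13
  -- small `δ` in `(0,1]`
  have hsmall : ∀ᶠ δ in 𝓝[>] (0:ℝ), δ ∈ Ioc (0:ℝ) 1 := Ioc_mem_nhdsGT one_pos
  -- basic bounds on every positive solution
  obtain ⟨Kw, hKw⟩ := R.wab
  set vol : ℝ := (muT R.ℓ).real univ with hvol
  have hKw0 : 0 ≤ Kw := (R.wa0 0).trans (hKw 0).1
  set A0 : ℝ := Kw * (C * vol / c) / 2 with hA0
  set K0 : ℝ := CC * (A0 ^ 2 + A0 ^ 2) / cc with hK0
  have hbound : ∀ᶠ δ in 𝓝[>] (0:ℝ), ∀ U V W, WSol p l1 R.ℓ R.h δ U V W →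
      (∀ᵐ z ∂muT R.ℓ, 0 < U z) → ∫ z, U z ^ 2 ∂muT R.ℓ ≤ K0 := by
    filter_upwards [hsmall, hco'] with δ hδ hcoδ U V W hs hpos
    have hb := hwb δ hδ
    have hU := hs.h1.mU
    have hUi : Integrable U (muT R.ℓ) := hU.integrable (by norm_num)
    have hg := memLp_gg hp hp1 hU
    have hgi : Integrable (fun z => gg p (U z)) (muT R.ℓ) := hg.integrable (by norm_num)
    have hg0 := Inu_gg_eq_zero hl1 hs
    -- `∫ U ≤ ∫ 1`
    have h1 : Inu R.ℓ R.h δ (fun z => (1 - p) * (U z + (-1))) ≤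
        Inu R.ℓ R.h δ (fun z => gg p (U z)) := by
      refine Inu_mono hcont hc hb ((hUi.add (integrable_const _)).const_mul _) hgi ?_
      filter_upwards [hpos] with z hz
      rw [gg_of_nonneg hp hz.le]
      have := rpow_one_add_le_one_add_mul_self (s := U z - 1) (by linarith) hp.le hp1.le
      rw [show 1 + (U z - 1) = U z by ring] at this
      linarith
    rw [hg0, Inu_const_mul, Inu_add hcont hc hb hUi (integrable_const _)] at h1
    have h2 : Inu R.ℓ R.h δ (fun _ => (-1:ℝ)) = - Inu R.ℓ R.h δ (fun _ => 1) := by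
      have := Inu_const_mul (ℓ := R.ℓ) (h := R.h) (δ := δ) (-1) (fun _ => (1:ℝ))
      simpa using this
    have h3 : Inu R.ℓ R.h δ U ≤ Inu R.ℓ R.h δ (fun _ => 1) := by
      have h1p : 0 < 1 - p := by linarith
      have : Inu R.ℓ R.h δ U + Inu R.ℓ R.h δ (fun _ => (-1:ℝ)) ≤ 0 := by
        by_contra hc'
        push Not at hc'
        linarith [mul_pos h1p hc']
      linarith
    have h4 : Inu R.ℓ R.h δ (fun _ => 1) ≤ C * vol := by
      rw [Inu_def]
      have : ∫ z, (1:ℝ) * wt R.ℓ R.h δ z ∂muT R.ℓ ≤ ∫ _z, C ∂muT R.ℓ := by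
        refine integral_mono_ae (integrable_mul_wt hcont hc hb (integrable_const _))
          (integrable_const _) ?_
        filter_upwards [ae_mem R.ℓ] with z hz
        linarith [(hb z hz).2]
      rw [integral_const] at this
      simp only [smul_eq_mul] at this
      linarith
    have h5 : c * ∫ z, U z ∂muT R.ℓ ≤ Inu R.ℓ R.h δ U := by
      rw [Inu_def, ← integral_const_mul]
      refine integral_mono_ae (hUi.const_mul _) (integrable_mul_wt hcont hc hb hUi) ?_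
      filter_upwards [hpos, ae_mem R.ℓ] with z hz hm
      have := mul_le_mul_of_nonneg_right (hb z hm).1 hz.le
      linarith
    have h6 : ∫ z, U z ∂muT R.ℓ ≤ C * vol / c := by
      rw [le_div_iff₀ hc]; linarith
    have hav : ∀ w : ℝ → ℝ, Measurable w → (∀ s, 0 ≤ w s) → (∀ s, w s ≤ Kw) →
        ((∫ z, w z.1 * U z ∂muT R.ℓ) / 2) ^ 2 ≤ A0 ^ 2 := by
      intro w hwm hw0 hwK
      have hint : Integrable (fun z : ℝ × ℝ => w z.1 * U z) (muT R.ℓ) := by
        refine hUi.bdd_mul (c := Kw) (hwm.comp measurable_fst).aestronglyMeasurable ?_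
        filter_upwards with z
        rw [Real.norm_eq_abs, abs_of_nonneg (hw0 _)]
        exact hwK _
      have g1 : 0 ≤ ∫ z, w z.1 * U z ∂muT R.ℓ := by
        refine integral_nonneg_of_ae ?_
        filter_upwards [hpos] with z hz
        exact mul_nonneg (hw0 _) hz.le
      have g2 : ∫ z, w z.1 * U z ∂muT R.ℓ ≤ Kw * ∫ z, U z ∂muT R.ℓ := by
        rw [← integral_const_mul]
        refine integral_mono_ae hint (hUi.const_mul _) ?_
        filter_upwards [hpos] with z hz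
        exact mul_le_mul_of_nonneg_right (hwK _) hz.le
      have g3 : ∫ z, w z.1 * U z ∂muT R.ℓ ≤ Kw * (C * vol / c) :=
        g2.trans (mul_le_mul_of_nonneg_left h6 hKw0)
      apply pow_le_pow_left₀ (by linarith)
      rw [hA0]; linarith
    have ha := hav R.wa R.wam R.wa0 (fun s => (hKw s).1)
    have hbq := hav R.wb R.wbm R.wb0 (fun s => (hKw s).2)
    have h7 := hcoδ U V W hs.h1
    -- energy
    have h8 := hweak p ⟨hp, hp1⟩ R.ℓ hℓ R.h R.smooth R.per R.pos δ hδ.1 l1 U V W hs U V W hs.h1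
    have h9 : Inu R.ℓ R.h δ (fun z => gg p (U z) * U z) ≤ Inu R.ℓ R.h δ (fun z => U z ^ 2) := by
      refine Inu_mono hcont hc hb (hg.integrable_mul hU) hU.integrable_sq ?_
      filter_upwards with z
      have h10 := sp_mul_self hp (x := U z)
      have h11 : 0 ≤ |U z| ^ (p + 1) := Real.rpow_nonneg (abs_nonneg _) _
      simp only [gg]
      nlinarith
    have h10 : Bil R.ℓ R.h δ V W V W ≤ l1 * Inu R.ℓ R.h δ (fun z => U z ^ 2) := by
      rw [h8]; exact mul_le_mul_of_nonneg_left h9 hl1.le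
    have h11 := Bil_nonneg (ℓ := R.ℓ) (δ := δ) R.pos V W
    have h12 : cc * ∫ z, U z ^ 2 ∂muT R.ℓ ≤ CC * (A0 ^ 2 + A0 ^ 2) := by
      have e1 : R.a2 U ^ 2 ≤ A0 ^ 2 := ha
      have e2 : R.b2 U ^ 2 ≤ A0 ^ 2 := hbq
      have e3 : CC * (R.a2 U ^ 2 + R.b2 U ^ 2) ≤ CC * (A0 ^ 2 + A0 ^ 2) := by gcongr
      have e4 : 0 ≤ cc * Bil R.ℓ R.h δ V W V W := by positivity
      nlinarith
    rw [hK0, le_div_iff₀ hcc]
    linarith
  -- a sequence of counterexamples
  have hfreq : ∃ᶠ δ in 𝓝[>] (0:ℝ), (δ ∈ Ioc (0:ℝ) 1 ∧ ∀ U V W, WSol p l1 R.ℓ R.h δ U V W →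
      (∀ᵐ z ∂muT R.ℓ, 0 < U z) → ∫ z, U z ^ 2 ∂muT R.ℓ ≤ K0) ∧
      ¬ ∀ U V W, WSol p l1 R.ℓ R.h δ U V W → (∀ᵐ z ∂muT R.ℓ, 0 < U z) →
        ∃ k, ∀ᵐ z ∂muT R.ℓ, U z = k :=
    hcon.and_eventually (hsmall.and hbound) |>.mono fun δ h => ⟨h.2, h.1⟩
  obtain ⟨δ, hδt, hδ⟩ := exists_seq_forall_of_frequently hfreq
  have hδ0 : ∀ n, 0 < δ n := fun n => (hδ n).1.1.1
  have hδ1 : ∀ n, δ n ∈ Ioc (0:ℝ) 1 := fun n => (hδ n).1.1
  have hex : ∀ n, ∃ U V W, WSol p l1 R.ℓ R.h (δ n) U V W ∧ (∀ᵐ z ∂muT R.ℓ, 0 < U z) ∧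
      ¬ ∃ k, ∀ᵐ z ∂muT R.ℓ, U z = k := by
    intro n
    by_contra hno
    refine (hδ n).2 fun U V W h1 h2 => ?_
    by_contra h3
    exact hno ⟨U, V, W, h1, h2, h3⟩
  choose U V W hsol hpos hnc using hex
  have hδt0 : Tendsto δ atTop (𝓝 0) := hδt.mono_right nhdsWithin_le_nhds
  obtain ⟨ns, hns, v, F, hv, hconv⟩ := hlim p l0 l1 l3 R l1 ⟨hl1, R.hl13⟩ δ hδ0 hδt0 U V W hsol
    ⟨K0, fun n => (hδ n).1.2 _ _ _ (hsol n) (hpos n)⟩
  have hδns : Tendsto (fun k => δ (ns k)) atTop (𝓝[>] 0) := hδt.comp hns.tendsto_atTop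
  have hvc : Continuous v := continuous_iff_continuousAt.2 fun s => (hv.du s).continuousAt
  have hvc2 : Continuous fun z : ℝ × ℝ => v z.1 := hvc.comp continuous_fst
  have hvL : MemLp (fun z : ℝ × ℝ => v z.1) 2 (muT R.ℓ) := by
    obtain ⟨B, hB⟩ : ∃ B, ∀ s, |v s| ≤ B := by
      have hper : Function.Periodic v R.ℓ := hv.per
      obtain ⟨B, hB⟩ := (hper.compact_of_continuous hℓ.ne' hvc).isBounded.exists_norm_le
      exact ⟨B, fun s => hB _ ⟨s, rfl⟩⟩
    exact MemLp.of_bound hvc2.aestronglyMeasurable B (Eventually.of_forall fun z => hB z.1)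
  -- `v ≥ 0`
  have hv0 : ∀ s, 0 ≤ v s := by
    have hfc : Continuous fun s => (min (v s) 0) ^ 2 := (hvc.min continuous_const).pow 2
    have hle : ∀ k, ∫ z : ℝ × ℝ, (min (v z.1) 0) ^ 2 ∂muT R.ℓ ≤
        ∫ z, (U (ns k) z - v z.1) ^ 2 ∂muT R.ℓ := by
      intro k
      refine integral_mono_of_nonneg (Eventually.of_forall fun z => sq_nonneg _)
        ((hsol (ns k)).h1.mU.sub hvL).integrable_sq ?_
      filter_upwards [hpos (ns k)] with z hz
      change (min (v z.1) 0) ^ 2 ≤ (U (ns k) z - v z.1) ^ 2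
      rcases le_total (v z.1) 0 with h | h
      · rw [min_eq_left h]; nlinarith
      · rw [min_eq_right h]; nlinarith [sq_nonneg (U (ns k) z - v z.1)]
    have hz : ∫ z : ℝ × ℝ, (min (v z.1) 0) ^ 2 ∂muT R.ℓ ≤ 0 :=
      ge_of_tendsto' hconv hle
    rw [integral_fst hℓ (fun s => (min (v s) 0) ^ 2)] at hz
    have hIcc : ∀ s ∈ Icc 0 R.ℓ, 0 ≤ v s := by
      intro s hs
      by_contra hneg
      push Not at hneg
      have : 0 < ∫ s in (0:ℝ)..R.ℓ, (min (v s) 0) ^ 2 :=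
        intervalIntegral.integral_pos hℓ hfc.continuousOn (fun x _ => sq_nonneg _)
          ⟨s, hs, by rw [min_eq_left hneg.le]; nlinarith⟩
      linarith
    intro s
    have hper : Function.Periodic v R.ℓ := hv.per
    obtain ⟨y, hy, hvy⟩ := hper.exists_mem_Ico₀ hℓ s
    rw [hvy]
    exact hIcc y (Ico_subset_Icc_self hy)
  -- uniform closeness along the subsequence
  have hclose : ∀ η > 0, ∀ᶠ k in atTop, ∀ᵐ z ∂muT R.ℓ, |U (ns k) z - v z.1| ≤ η := by
    intro η hη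
    obtain ⟨κ, hκ, hev⟩ := hsup p ⟨hp, hp1⟩ R.ℓ hℓ R.h R.smooth R.per R.pos l1 hl1 v F hv η hη
    filter_upwards [hδns.eventually hev, hconv.eventually (gt_mem_nhds hκ)] with k h1 h2
    exact h1 _ _ _ (hsol (ns k)) h2.le
  rcases R.T2 v F hv hv0 with h | h | h
  · -- `v = 0`
    obtain ⟨k, hk⟩ := (hclose (1/2) (by norm_num)).exists
    have hb := hwb _ (hδ1 (ns k))
    have hg0 := Inu_gg_eq_zero hl1 (hsol (ns k))
    have hgi := (memLp_gg hp hp1 (hsol (ns k)).h1.mU).integrable (by norm_num : (1:ENNReal) ≤ 2)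
    have hneg : ∀ᵐ z ∂muT R.ℓ, gg p (U (ns k) z) < 0 := by
      filter_upwards [hk, hpos (ns k)] with z h1 h2
      rw [h, sub_zero, abs_of_pos h2] at h1
      exact gg_neg_of_mem hp hp1 h2 (by linarith)
    have hz := Inu_eq_zero hcont hc hb (f := fun z => (-1) * gg p (U (ns k) z))
      (hgi.const_mul (-1)) (by filter_upwards [hneg] with z hz; linarith)
      (by rw [Inu_const_mul, hg0]; simp)
    obtain ⟨z, h1, h2⟩ := (hneg.and hz).exists
    linarith
  · -- `v = 1`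
    -- choose `ν`
    have h4 := R.hl4
    set ν : ℝ := (R.l4 - (1 - p) * l1) / (2 * l1) with hν
    have hν0 : 0 < ν := by
      apply div_pos (by linarith) (by linarith)
    set l : ℝ := (1 - p + ν) * l1 + (R.l4 - (1 - p) * l1) / 4 with hl
    have hνl : ν * l1 = (R.l4 - (1 - p) * l1) / 2 := by
      rw [hν]; field_simp
    have hll4 : l < R.l4 := by rw [hl]; nlinarith
    have hll : l1 * (1 - p + ν) < l := by rw [hl]; linarith
    obtain ⟨η, hη0, hη1, hη⟩ := gg_near hp hp1 hν0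
    obtain ⟨k, hk, hk4⟩ := ((hclose η hη0).and
      (hδns.eventually (hT4 p l0 l1 l3 R l hll4))).exists
    have hb := hwb _ (hδ1 (ns k))
    obtain ⟨m, hm, hm4⟩ := hk4 _ _ _ (hsol (ns k)).h1
    set δ' := δ (ns k) with hδ'
    set u := U (ns k) with hu
    have hU : MemLp u 2 (muT R.ℓ) := (hsol (ns k)).h1.mU
    have hUi : Integrable u (muT R.ℓ) := hU.integrable (by norm_num)
    have hg := memLp_gg hp hp1 hU
    have hgi : Integrable (fun z => gg p (u z)) (muT R.ℓ) := hg.integrable (by norm_num)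
    have hg0 : Inu R.ℓ R.h δ' (fun z => gg p (u z)) = 0 := Inu_gg_eq_zero hl1 (hsol (ns k))
    have hI1 : 0 < Inu R.ℓ R.h δ' (fun _ => 1) := by
      by_contra hle
      push Not at hle
      have := Inu_eq_zero hcont hc hb (f := fun _ => (1:ℝ)) (integrable_const _)
        (Eventually.of_forall fun _ => zero_le_one) hle
      obtain ⟨z, hz⟩ := this.exists
      exact one_ne_zero hz
    have hrange : ∀ᵐ z ∂muT R.ℓ, |u z - 1| ≤ η := by
      filter_upwards [hk] with z hz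
      rwa [h] at hz
    -- `|m - 1| ≤ η`
    have hm1 : |m - 1| ≤ η := by
      have up : Inu R.ℓ R.h δ' u ≤ (1 + η) * Inu R.ℓ R.h δ' (fun _ => 1) := by
        rw [← Inu_const_mul]
        refine Inu_mono hcont hc hb hUi (integrable_const _) ?_
        filter_upwards [hrange] with z hz
        linarith [(abs_le.1 hz).2]
      have lo : (1 - η) * Inu R.ℓ R.h δ' (fun _ => 1) ≤ Inu R.ℓ R.h δ' u := by
        rw [← Inu_const_mul]
        refine Inu_mono hcont hc hb (integrable_const _) hUi ?_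
        filter_upwards [hrange] with z hz
        linarith [(abs_le.1 hz).1]
      rw [← hm] at up lo
      have g1 := le_of_mul_le_mul_right up hI1
      have g2 := le_of_mul_le_mul_right lo hI1
      rw [abs_le]; constructor <;> linarith
    have hE := hweak p ⟨hp, hp1⟩ R.ℓ hℓ R.h R.smooth R.per R.pos δ' (hδ1 (ns k)).1 l1 _ _ _
      (hsol (ns k)) _ _ _ (hsol (ns k)).h1
    -- integrability of the pieces
    have hUm : MemLp (fun z => u z - m) 2 (muT R.ℓ) := hU.sub (memLp_const m)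
    have hUm1 : Integrable (fun z => u z - m) (muT R.ℓ) := hUm.integrable (by norm_num)
    have hggU : Integrable (fun z => gg p (u z) * u z) (muT R.ℓ) := hg.integrable_mul hU
    have hprod : Integrable (fun z => (gg p (u z) - gg p m) * (u z - m)) (muT R.ℓ) :=
      (hg.sub (memLp_const _)).integrable_mul hUm
    have hsq : Integrable (fun z => (u z - m) ^ 2) (muT R.ℓ) := hUm.integrable_sq
    -- identity
    have hid : Inu R.ℓ R.h δ' (fun z => gg p (u z) * u z)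
        = Inu R.ℓ R.h δ' (fun z => (gg p (u z) - gg p m) * (u z - m)) := by
      have e1 : Inu R.ℓ R.h δ' (fun z => (gg p (u z) - gg p m) * (u z - m)) =
          Inu R.ℓ R.h δ' (fun z => gg p (u z) * u z + ((-m) * gg p (u z)
            + ((- gg p m) * u z + (gg p m * m) * 1))) := by
        congr 1; funext z; ring
      have hi4 : Integrable (fun _ : ℝ × ℝ => (gg p m * m) * (1:ℝ)) (muT R.ℓ) :=
        integrable_const _
      have hi3 : Integrable (fun z => (- gg p m) * u z) (muT R.ℓ) := hUi.const_mul _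
      have hi2 : Integrable (fun z => (-m) * gg p (u z)) (muT R.ℓ) := hgi.const_mul _
      have hi34 : Integrable (fun z => (- gg p m) * u z + (gg p m * m) * 1) (muT R.ℓ) :=
        hi3.add hi4
      have hi234 : Integrable (fun z => (-m) * gg p (u z) +
          ((- gg p m) * u z + (gg p m * m) * 1)) (muT R.ℓ) := hi2.add hi34
      rw [e1, Inu_add hcont hc hb hggU hi234,
        Inu_add hcont hc hb hi2 hi34, Inu_add hcont hc hb hi3 hi4,
        Inu_const_mul, Inu_const_mul, Inu_const_mul, hg0, ← hm]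
      ring
    have hle : Inu R.ℓ R.h δ' (fun z => (gg p (u z) - gg p m) * (u z - m)) ≤
        (1 - p + ν) * Inu R.ℓ R.h δ' (fun z => (u z - m) ^ 2) := by
      rw [← Inu_const_mul]
      refine Inu_mono hcont hc hb hprod (hsq.const_mul _) ?_
      filter_upwards [hrange] with z hz
      exact hη _ _ hz hm1
    have hfin : Inu R.ℓ R.h δ' (fun z => (u z - m) ^ 2) ≤ 0 := by
      by_contra hgt
      push Not at hgt
      rw [hE, hid] at hm4
      have g1 := mul_le_mul_of_nonneg_left hle hl1.le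
      have g2 := mul_lt_mul_of_pos_right hll hgt
      nlinarith
    have hz := Inu_eq_zero hcont hc hb hsq (Eventually.of_forall fun z => sq_nonneg _) hfin
    refine hnc (ns k) ⟨m, ?_⟩
    filter_upwards [hz] with z hz
    have := pow_eq_zero_iff (two_ne_zero) |>.1 hz
    linarith
  · -- dead core
    obtain ⟨α, β, hα, hαβ, hβ, hvz, hhc⟩ := h
    obtain ⟨η, hη, hev⟩ := hdead p ⟨hp, hp1⟩ R.ℓ hℓ R.h R.smooth R.per R.pos l1 hl1 α β hα hαβ hβ
      hhc
    obtain ⟨k, hk, hk2⟩ := ((hclose η hη).and (hδns.eventually hev)).exists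
    refine hk2 _ _ _ (hsol (ns k)) ?_ ?_ (hpos (ns k))
    · filter_upwards [hpos (ns k)] with z hz using hz.le
    · filter_upwards [hk] with z hz hzm
      rw [hvz z.1 hzm, sub_zero] at hz
      exact (le_abs_self _).trans hz

end Pool.Agent.Lib.MP_e46711_an.H46
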